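import Pool.Agent.H927.MG.SGoals
import Pool.Graph.R_pool_sql_team_seeded_f72693b1.W523.Genus

/-!
# Cohomology of the structure sheaf for a circulant gluing of degrees 3, 1, 3
-/

set_option autoImplicit false

open AlgebraicGeometry CategoryTheory Limits Polynomial
open scoped LaurentPolynomial
open LaurentPolynomial (T invert T_add T_zero involutive_invert invert_T invert_C)

namespace Pool.Agent.H249.MG927

open Pool.Agent.W523 (laurent_split coeff_toLaurent_neg coeff_mul_T)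

open Pool.Agent.H927.MG

section laurent

variable {K : Type} [Field K]

lemma cf_add (f g : K[T;T⁻¹]) (n : ℤ) : (f + g).coeff n = f.coeff n + g.coeff n := by
  rw [AddMonoidAlgebra.coeff_add, Finsupp.add_apply]

lemma cf_C_mul (a : K) (f : K[T;T⁻¹]) (n : ℤ) :
    (LaurentPolynomial.C a * f).coeff n = a * f.coeff n := by
  rw [← LaurentPolynomial.smul_eq_C_mul]
  rfl

lemma cf_T_mul (f : K[T;T⁻¹]) (m n : ℤ) : (T m * f).coeff n = f.coeff (n - m) := by
  rw [mul_comm, coeff_mul_T]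

lemma cf_T (m n : ℤ) : (T m : K[T;T⁻¹]).coeff n = if m = n then 1 else 0 :=
  LaurentPolynomial.T_apply n m

lemma cf_nat (p : K[X]) (n : ℕ) : (toLaurent p).coeff (n : ℤ) = p.coeff n := by
  induction p using Polynomial.induction_on' with
  | add p q hp hq => rw [map_add, cf_add, hp, hq, Polynomial.coeff_add]
  | monomial m a =>
    rw [Polynomial.toLaurent_C_mul_T, cf_C_mul, cf_T, Polynomial.coeff_monomial]
    by_cases h : m = n
    · rw [if_pos h, if_pos (by exact_mod_cast h), mul_one]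
    · rw [if_neg h, if_neg (by exact_mod_cast h), mul_zero]

lemma cf_low (γ : K) (q : K[X]) (k : ℕ) (n : ℤ) (hn : -(k : ℤ) ≤ n) :
    (LaurentPolynomial.C γ * T (-(k + 1 : ℤ)) * inv K (toLaurent q)).coeff n = 0 := by
  rw [mul_assoc, cf_C_mul, cf_T_mul, inv_apply, LaurentPolynomial.invert_apply,
    coeff_toLaurent_neg _ _ (by omega), mul_zero]

lemma zero_of {γ : K} {p q : K[X]} {k : ℕ}
    (h : toLaurent p = LaurentPolynomial.C γ * T (-(k + 1 : ℤ)) * inv K (toLaurent q)) : p = 0 := by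
  ext n
  rw [← cf_nat, h, cf_low _ _ _ _ (by omega), Polynomial.coeff_zero]

lemma const_of {p q : K[X]} (h : toLaurent p = inv K (toLaurent q)) : p = C (p.coeff 0) := by
  ext n
  rcases Nat.eq_zero_or_pos n with rfl | hn
  · rw [Polynomial.coeff_C_zero]
  · rw [Polynomial.coeff_C_of_ne_zero hn.ne', ← cf_nat, h, inv_apply, LaurentPolynomial.invert_apply,
      coeff_toLaurent_neg _ _ (by omega)]

/-- the decomposition -/
lemma split_of {γ : K} (hγ : γ ≠ 0) (k : ℕ) (w : K[T;T⁻¹]) : ∃ p q : K[X],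
    w = toLaurent p + ∑ i ∈ Finset.range k, LaurentPolynomial.C (w.coeff (-(i + 1 : ℤ))) *
      T (-(i + 1 : ℤ)) + LaurentPolynomial.C γ * T (-(k + 1 : ℤ)) * inv K (toLaurent q) := by
  obtain ⟨p, q, h⟩ := laurent_split k w
  refine ⟨p, C γ⁻¹ * q, ?_⟩
  conv_lhs => rw [h]
  congr 1
  rw [map_mul, map_mul, toLaurent_C, inv_apply, inv_apply, invert_C]
  have e : LaurentPolynomial.C γ * LaurentPolynomial.C γ⁻¹ = (1 : K[T;T⁻¹]) := by
    rw [← map_mul, mul_inv_cancel₀ hγ, map_one]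
  linear_combination (-(invert (toLaurent q) * T (-(k + 1 : ℤ)))) * e

lemma split_zero (w : K[T;T⁻¹]) : ∃ p q : K[X], w = toLaurent p + inv K (toLaurent q) := by
  obtain ⟨p, q, h⟩ := laurent_split 0 w
  refine ⟨p, q * X, ?_⟩
  conv_lhs => rw [h]
  rw [map_mul, map_mul, toLaurent_X, inv_apply, inv_apply, invert_T]
  simp

end laurent

section main

variable {K : Type} [Field K] (G : GD K)

lemma inc2_eq (w : BB G.d2) : inc2 G w = ⟨inv K (toLaurent w.a), G.g.c * inv K (toLaurent w.b),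
    G.g.x * inv K (toLaurent w.p) + G.g.z * inv K (toLaurent w.q),
    G.g.y * inv K (toLaurent w.p) + G.g.t * inv K (toLaurent w.q)⟩ := by
  rw [inc2, RingHom.comp_apply, Mor.hom_apply]
  rfl

lemma inc_eq (w : BB G.d1) : inc G.d1 w = ⟨toLaurent w.a, toLaurent w.b, toLaurent w.p,
    toLaurent w.q⟩ := rfl

lemma of_mul (d : Dat K[T;T⁻¹]) (r : K[T;T⁻¹]) (w : BB d) :
    BB.of d r * w = ⟨r * w.a, r * w.b, r * w.p, r * w.q⟩ := by
  ext1 <;> simp

/-- the basis of the first cohomology -/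
noncomputable def Bs : Fin 4 → BB G.d1.L :=
  ![⟨0, T (-1), 0, 0⟩, ⟨0, T (-2), 0, 0⟩, ⟨0, 0, T (-1), -T (-1)⟩, ⟨0, 0, T (-2), -T (-2)⟩]

lemma sum_eq (a : Fin 4 → K) : (∑ i, inc G.d1 (sc _ (a i)) * Bs G i) =
    ⟨0, LaurentPolynomial.C (a 0) * T (-1) + LaurentPolynomial.C (a 1) * T (-2),
      LaurentPolynomial.C (a 2) * T (-1) + LaurentPolynomial.C (a 3) * T (-2),
      -(LaurentPolynomial.C (a 2) * T (-1) + LaurentPolynomial.C (a 3) * T (-2))⟩ := by
  simp only [Fin.sum_univ_four, inc_sc_apply, of_mul]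
  ext1 <;> simp [Bs]
  ring

lemma key (γ f₁ f₂ : K) (p q : K[X]) :
    (LaurentPolynomial.C f₁ * T (-1) + LaurentPolynomial.C f₂ * T (-2) + toLaurent p +
      LaurentPolynomial.C γ * T (-3) * inv K (toLaurent q)).coeff (-1) = f₁ ∧
    (LaurentPolynomial.C f₁ * T (-1) + LaurentPolynomial.C f₂ * T (-2) + toLaurent p +
      LaurentPolynomial.C γ * T (-3) * inv K (toLaurent q)).coeff (-2) = f₂ := by
  have e : (T (-3) : K[T;T⁻¹]) = T (-((2 : ℕ) + 1 : ℤ)) := by norm_num
  constructor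
  · rw [cf_add, cf_add, cf_add, e, cf_low _ _ _ _ (by norm_num), cf_C_mul, cf_C_mul, cf_T, cf_T,
      coeff_toLaurent_neg _ _ (by norm_num)]
    simp
  · rw [cf_add, cf_add, cf_add, e, cf_low _ _ _ _ (by norm_num), cf_C_mul, cf_C_mul, cf_T, cf_T,
      coeff_toLaurent_neg _ _ (by norm_num)]
    simp

end main

/-- CM -/
theorem cohom_m : S_cohom_m := by
  intro K _ G α β hα hβ h2 hc hxt hyz hs hd
  have e1 : (T (-1) : K[T;T⁻¹]) = T (-((0 : ℕ) + 1 : ℤ)) := by norm_num
  have e3 : (T (-3) : K[T;T⁻¹]) = T (-((2 : ℕ) + 1 : ℤ)) := by norm_num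
  have hC1 : (LaurentPolynomial.C (1 : K)) = 1 := map_one _
  have hh : (2 : K[T;T⁻¹]) * LaurentPolynomial.C (2⁻¹ : K) = 1 := by
    have : (2 : K[T;T⁻¹]) = LaurentPolynomial.C (2 : K) := (map_ofNat LaurentPolynomial.C 2).symm
    rw [this, ← map_mul, mul_inv_cancel₀ h2, map_one]
  constructor
  · intro w₁ w₂ h
    rw [inc_eq, inc2_eq] at h
    have ha := congrArg BB.a h
    have hb := congrArg BB.b h
    have hp := congrArg BB.p h
    have hq := congrArg BB.q h
    simp only at ha hb hp hq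
    have a1 := const_of ha
    have b1 : w₁.b = 0 := by
      apply zero_of (γ := 1) (k := 2) (q := w₂.b)
      rw [hb, hc, ← e3, hC1, one_mul]
    have s1 : w₁.p + w₁.q = 0 := by
      apply zero_of (γ := α) (k := 0) (q := w₂.p + w₂.q)
      rw [← e1, ← hs, map_add, map_add, map_add, hp, hq, ← hxt, ← hyz]
      ring
    have d1 : w₁.p - w₁.q = 0 := by
      apply zero_of (γ := β) (k := 2) (q := w₂.p - w₂.q)
      rw [← e3, ← hd, map_sub, map_sub, map_sub, hp, hq, ← hxt, ← hyz]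
      ring
    have h2' : (C (2⁻¹ : K)) * 2 = (1 : K[X]) := by
      have : (2 : K[X]) = C (2 : K) := (map_ofNat C 2).symm
      rw [this, ← map_mul, inv_mul_cancel₀ h2, map_one]
    have p0 : w₁.p = 0 := by
      linear_combination (C (2⁻¹ : K)) * s1 + (C (2⁻¹ : K)) * d1 - w₁.p * h2'
    have q0 : w₁.q = 0 := by
      linear_combination (C (2⁻¹ : K)) * s1 - (C (2⁻¹ : K)) * d1 - w₁.q * h2'
    refine ⟨w₁.a.coeff 0, ?_⟩
    rw [sc_apply]
    ext1
    · exact a1
    · exact b1
    · exact p0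
    · exact q0
  · refine ⟨Bs G, fun w => ?_⟩
    refine ⟨![w.b.coeff (-1), w.b.coeff (-2), 2⁻¹ * (w.p - w.q).coeff (-1),
      2⁻¹ * (w.p - w.q).coeff (-2)], ?_, ?_⟩
    · obtain ⟨a1, a2, ha⟩ := split_zero w.a
      obtain ⟨b1, b2, hb⟩ := split_of (γ := 1) one_ne_zero 2 w.b
      obtain ⟨P1, P2, hP⟩ := split_of hα 0 (w.p + w.q)
      obtain ⟨Q1, Q2, hQ⟩ := split_of hβ 2 (w.p - w.q)
      rw [← e3, hC1, one_mul, Finset.sum_range_succ, Finset.sum_range_one] at hb
      rw [← e1, ← hs, Finset.sum_range_zero, add_zero] at hP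
      rw [← e3, ← hd, Finset.sum_range_succ, Finset.sum_range_one] at hQ
      norm_num at hb hQ
      refine ⟨⟨a1, b1, C 2⁻¹ * (P1 + Q1), C 2⁻¹ * (P1 - Q1)⟩,
        ⟨a2, b2, C 2⁻¹ * (P2 + Q2), C 2⁻¹ * (P2 - Q2)⟩, ?_⟩
      rw [sum_eq, inc_eq, inc2_eq]
      ext1
      · simp only [BB.add_a, zero_add]
        exact ha
      · simp only [BB.add_b, hc]
        simp
        linear_combination hb
      · simp only [BB.add_p, ← hyz]
        simp [inv_apply]
        simp only [inv_apply] at hP hQ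
        linear_combination LaurentPolynomial.C (2⁻¹ : K) * hP +
          LaurentPolynomial.C (2⁻¹ : K) * hQ - w.p * hh
      · simp only [BB.add_q, ← hxt]
        simp [inv_apply]
        simp only [inv_apply] at hP hQ
        linear_combination LaurentPolynomial.C (2⁻¹ : K) * hP -
          LaurentPolynomial.C (2⁻¹ : K) * hQ - w.q * hh
    · rintro a ⟨w₁, w₂, h⟩
      rw [sum_eq, inc_eq, inc2_eq] at h
      have hb := congrArg BB.b h
      have hp := congrArg BB.p h
      have hq := congrArg BB.q h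
      simp only [BB.add_b, BB.add_p, BB.add_q] at hb hp hq
      have hb' : w.b = LaurentPolynomial.C (a 0) * T (-1) + LaurentPolynomial.C (a 1) * T (-2) +
          toLaurent w₁.b + LaurentPolynomial.C 1 * T (-3) * inv K (toLaurent w₂.b) := by
        rw [hC1, one_mul, ← hc]
        exact hb
      have hd' : w.p - w.q = LaurentPolynomial.C (2 * a 2) * T (-1) +
          LaurentPolynomial.C (2 * a 3) * T (-2) + toLaurent (w₁.p - w₁.q) +
            LaurentPolynomial.C β * T (-3) * inv K (toLaurent (w₂.p - w₂.q)) := by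
        rw [← hd, hp, hq, ← hxt, ← hyz, map_mul, map_mul, map_ofNat, map_sub, map_sub, map_sub]
        ring
      have kb := key 1 (a 0) (a 1) w₁.b w₂.b
      have kd := key β (2 * a 2) (2 * a 3) (w₁.p - w₁.q) (w₂.p - w₂.q)
      rw [← hb'] at kb
      rw [← hd'] at kd
      ext i
      fin_cases i
      · exact kb.1.symm
      · exact kb.2.symm
      · change a 2 = 2⁻¹ * (w.p - w.q).coeff (-1)
        rw [kd.1, inv_mul_cancel_left₀ h2]
      · change a 3 = 2⁻¹ * (w.p - w.q).coeff (-2)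
        rw [kd.2, inv_mul_cancel_left₀ h2]

end Pool.Agent.H249.MG927
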